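import Pool.Agent.W425.GN.Defs3

set_option autoImplicit false

/-! Project GN, part W1: a weighted monomial order. -/

namespace Pool.Agent.W881.GN

open MvPolynomial Pool.Agent.W425.GN

/-- A copy of the monoid of the exponents. -/
def WS (n : ℕ) (_m : MonomialOrder.{0, 0} (Sy n)) : Type := Sy n →₀ ℕ

variable {n : ℕ} (m0 : MonomialOrder.{0, 0} (Sy n))

noncomputable instance : AddCommMonoid (WS n m0) :=
  inferInstanceAs (AddCommMonoid (Sy n →₀ ℕ))

theorem wt_add (d d' : Sy n →₀ ℕ) : wt (d + d') = wt d + wt d' := by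
  unfold wt
  simp only [Finsupp.add_apply, Finset.sum_add_distrib]
  ring

/-- the injective map to the lexicographic product -/
noncomputable def emb (d : WS n m0) : ℕ ×ₗ m0.syn :=
  toLex (wt (show Sy n →₀ ℕ from d), m0.toSyn (show Sy n →₀ ℕ from d))

theorem emb_inj : Function.Injective (emb m0) := by
  intro d d' h
  have h1 : (wt (show Sy n →₀ ℕ from d), m0.toSyn (show Sy n →₀ ℕ from d)) =
    (wt (show Sy n →₀ ℕ from d'), m0.toSyn (show Sy n →₀ ℕ from d')) := h
  have h2 := (Prod.ext_iff.1 h1).2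
  exact m0.toSyn.injective h2

noncomputable instance instLO : LinearOrder (WS n m0) := LinearOrder.lift' (emb m0) (emb_inj m0)

theorem ws_le_iff (d d' : WS n m0) : d ≤ d' ↔ emb m0 d ≤ emb m0 d' := Iff.rfl

theorem ws_lt_iff (d d' : WS n m0) : d < d' ↔ emb m0 d < emb m0 d' := Iff.rfl

theorem emb_le_iff (d d' : WS n m0) : emb m0 d ≤ emb m0 d' ↔
    wt (show Sy n →₀ ℕ from d) < wt (show Sy n →₀ ℕ from d') ∨
    (wt (show Sy n →₀ ℕ from d) = wt (show Sy n →₀ ℕ from d') ∧
      m0.toSyn (show Sy n →₀ ℕ from d) ≤ m0.toSyn (show Sy n →₀ ℕ from d')) := by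
  unfold emb
  rw [Prod.Lex.toLex_le_toLex]

instance : IsOrderedAddMonoid (WS n m0) where
  add_le_add_left a b h c := by
    rw [ws_le_iff, emb_le_iff] at h ⊢
    have e : ∀ x y : WS n m0, (show Sy n →₀ ℕ from (x + y)) =
      (show Sy n →₀ ℕ from x) + (show Sy n →₀ ℕ from y) := fun _ _ => rfl
    rw [e, e, wt_add, wt_add, map_add, map_add]
    rcases h with h | ⟨h1, h2⟩
    · exact Or.inl (by omega)
    · exact Or.inr ⟨by omega, by simpa using h2⟩

instance : WellFoundedLT (WS n m0) := by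
  have h : WellFounded (fun a b : ℕ ×ₗ m0.syn => a < b) := wellFounded_lt
  exact ⟨InvImage.wf (emb m0) h⟩

/-- The weighted order. -/
noncomputable def wo : MonomialOrder.{0, 0} (Sy n) where
  syn := WS n m0
  toSyn := { toEquiv := (Equiv.refl (Sy n →₀ ℕ) : (Sy n →₀ ℕ) ≃ WS n m0),
             map_add' := fun _ _ => rfl }
  toSyn_monotone := by
    intro a b h
    show (show WS n m0 from a) ≤ (show WS n m0 from b)
    rw [ws_le_iff, emb_le_iff]
    obtain ⟨c, rfl⟩ := exists_add_of_le h
    rcases Nat.eq_zero_or_pos (wt c) with h0 | h0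
    · right
      refine ⟨?_, m0.toSyn_monotone h⟩
      show wt a = wt (a + c)
      rw [wt_add]; omega
    · left
      show wt a < wt (a + c)
      rw [wt_add]; omega

theorem exists_order (σ : Type) [Finite σ] : Nonempty (MonomialOrder.{0, 0} σ) := by
  obtain ⟨k, ⟨e⟩⟩ := Finite.exists_equiv_fin σ
  let _ : LinearOrder σ := LinearOrder.lift' e e.injective
  have : WellFoundedGT σ := Finite.to_wellFoundedGT
  exact ⟨MonomialOrder.lex⟩

theorem w1 : TaskW1 := by
  intro n
  obtain ⟨m0⟩ := exists_order (Sy n)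
  refine ⟨wo m0, fun d d' h => ?_⟩
  show (show WS n m0 from d) < (show WS n m0 from d')
  rw [ws_lt_iff]
  unfold emb
  rw [Prod.Lex.toLex_lt_toLex]
  exact Or.inl h

end Pool.Agent.W881.GN
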